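import Pool.Agent.W321.SQ.Stm
import Pool.Agent.H115R2.Base

/-! Many disjoint bare paths: `F2Stm` from `CoreStm`. -/

set_option autoImplicit false

namespace Pool.Agent.W440.SQ

open Finset Pool.Agent.W321.SP Pool.Agent.W321.SQ

theorem three_le {V : Type} [Finite V] {s : Set V} {x y z : V} (hx : x ∈ s) (hy : y ∈ s)
    (hz : z ∈ s) (hxy : x ≠ y) (hxz : x ≠ z) (hyz : y ≠ z) : 3 ≤ s.ncard := by
  have hsub : ({x, y, z} : Set V) ⊆ s := by
    intro w hw
    simp only [Set.mem_insert_iff, Set.mem_singleton_iff] at hw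
    rcases hw with rfl | rfl | rfl
    · exact hx
    · exact hy
    · exact hz
  have h1 := Set.ncard_le_ncard hsub (Set.toFinite _)
  have h2 : ({x, y, z} : Set V).ncard = 3 := by
    rw [Set.ncard_eq_three]
    exact ⟨_, _, _, hxy, hxz, hyz, rfl⟩
  omega

section tree

variable {V : Type} [Finite V] {T : SimpleGraph V} {v : V} {par : V → V}

/-- the neighbours of a vertex of degree two -/
theorem nbr (h1 : ∀ x, x ≠ v → T.Adj (par x) x ∧ T.dist v x = T.dist v (par x) + 1)
    {x y z : V} (hx : x ≠ v) (hd : (T.neighborSet x).ncard = 2) (hy : y ≠ v) (hz : z ≠ v)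
    (hyx : par y = x) (hzx : par z = x) : y = z := by
  by_contra hne
  have h2 := (h1 x hx).2
  have h3 := (h1 y hy).2
  have h4 := (h1 z hz).2
  rw [hyx] at h3
  rw [hzx] at h4
  have h5 := three_le (s := T.neighborSet x) (x := par x) (y := y) (z := z) (h1 x hx).1.symm
    (by have := (h1 y hy).1; rw [hyx] at this; exact this)
    (by have := (h1 z hz).1; rw [hzx] at this; exact this)
    (by intro h; rw [← h] at h3; omega) (by intro h; rw [← h] at h4; omega) hne
  omega

/-- a bare path is vertical -/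
theorem vertical (hT : T.IsTree)
    (h1 : ∀ x, x ≠ v → T.Adj (par x) x ∧ T.dist v x = T.dist v (par x) + 1)
    (h2 : ∀ a b, T.Adj a b → T.dist v a = T.dist v b + 1 → par a = b)
    (Q : ℕ → V) (hadj : ∀ j < 68, T.Adj (Q j) (Q (j + 1)))
    (hinj : ∀ j < 69, ∀ j' < 69, Q j = Q j' → j = j')
    (hdeg : ∀ j < 69, (T.neighborSet (Q j)).ncard = 2) (hv : ∀ j < 69, Q j ≠ v) :
    ∃ σ : ℕ → ℕ, (∀ j < 69, σ j < 69) ∧ (∀ j < 69, ∀ j' < 69, σ j = σ j' → j = j') ∧
      ∀ j < 68, par (Q (σ (j + 1))) = Q (σ j) := by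
  have hstep : ∀ j < 68, par (Q (j + 1)) = Q j ∨ par (Q j) = Q (j + 1) := by
    intro j hj
    rcases hT.dist_eq_dist_add_one_of_adj v (hadj j hj) with h | h
    · right
      exact h2 _ _ (hadj j hj) h
    · left
      exact h2 _ _ (hadj j hj).symm h
  rcases hstep 0 (by norm_num) with h0 | h0
  · refine ⟨fun j => j, fun j hj => hj, fun j _ j' _ h => h, ?_⟩
    intro j
    induction j with
    | zero => intro _; exact h0
    | succ j ih =>
      intro hj
      rcases hstep (j + 1) hj with h | h
      · exact h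
      · exfalso
        have h3 := ih (by omega)
        simp only at h3
        rw [h] at h3
        have := hinj (j + 1 + 1) (by omega) j (by omega) h3
        omega
  · have hall : ∀ j < 68, par (Q j) = Q (j + 1) := by
      intro j
      induction j with
      | zero => intro _; exact h0
      | succ j ih =>
        intro hj
        rcases hstep (j + 1) hj with h | h
        · exfalso
          have h3 := ih (by omega)
          have h4 := nbr h1 (hv (j + 1) (by omega)) (hdeg (j + 1) (by omega))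
            (hv j (by omega)) (hv (j + 1 + 1) (by omega)) h3 h
          have := hinj j (by omega) (j + 1 + 1) (by omega) h4
          omega
        · exact h
    refine ⟨fun j => 68 - j, fun j _ => show 68 - j < 69 by omega, fun j hj j' hj' h => by
      simp only at h; omega, ?_⟩
    intro j hj
    simp only
    have h3 := hall (68 - (j + 1)) (by omega)
    rw [h3]
    congr 1
    omega

end tree

theorem z_f2 (hCore : CoreStm) : F2Stm := by
  intro ε hε
  set ε' : ℝ := min ε (1 / 10) with hε'
  have hε'0 : 0 < ε' := lt_min hε (by norm_num)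
  have hε'1 : ε' ≤ 1 / 10 := min_le_right _ _
  have hε'2 : ε' ≤ ε := min_le_left _ _
  obtain ⟨δ, r₀, hδ, H⟩ := hCore ε' (ε' / 2) hε'0 hε'1 (by positivity)
  refine ⟨⌈(4 + r₀ + 2 / δ) / ε⌉₊, ?_⟩
  intro V _ T hT hm v a b hL hva hab hbv hda hdb N P hN hPinj hPdeg hPadj
  classical
  set m : ℕ := T.edgeSet.ncard with hmdef
  have hmc : m + 1 = Fintype.card V := Pool.Agent.H115R2.ncard_edge T hT
  have hεm : 4 + (r₀ : ℝ) + 2 / δ ≤ ε * m := by
    have h1 : (4 + (r₀ : ℝ) + 2 / δ) / ε ≤ m := (Nat.le_ceil _).trans (by exact_mod_cast hm)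
    rwa [div_le_iff₀ hε, mul_comm] at h1
  have h2δ : 0 < 2 / δ := by positivity
  obtain ⟨par, hpar, hpar'⟩ := Pool.Agent.H115R2.exists_parent T hT v
  -- the leaves at `v`
  set L : Finset V := univ.filter (fun w => T.Adj v w ∧ (T.neighborSet w).ncard = 1) with hLdef
  have hLc : {w : V | T.Adj v w ∧ (T.neighborSet w).ncard = 1}.ncard = L.card := by
    rw [← Set.ncard_coe_finset]
    congr 1
    ext w
    simp [hLdef]
  rw [hLc] at hL
  have hmemL : ∀ x, x ∈ L ↔ T.Adj v x ∧ (T.neighborSet x).ncard = 1 := by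
    intro x; simp [hLdef]
  have hrt : Rt V v par (T.dist v) := ⟨by simp, fun x hx => (hpar x hx).2⟩
  have hedge : ∀ x y, T.Adj x y → (x ≠ v ∧ par x = y) ∨ (y ≠ v ∧ par y = x) := by
    intro x y hxy
    rcases hT.dist_eq_dist_add_one_of_adj v hxy with h | h
    · left
      refine ⟨?_, hpar' _ _ hxy h⟩
      rintro rfl
      simp at h
    · right
      refine ⟨?_, hpar' _ _ hxy.symm h⟩
      rintro rfl
      simp at h
  have hdv1 : ∀ x, T.Adj v x → T.dist v x = 1 := fun x h => SimpleGraph.dist_eq_one_iff_adj.mpr h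
  have hparv : ∀ x, T.Adj v x → par x = v := by
    intro x hx
    apply hpar' x v hx.symm
    rw [hdv1 x hx]
    simp
  have hLp : ∀ x ∈ L, x ≠ v ∧ par x = v ∧ Chl V v par x := by
    intro x hx
    rw [hmemL] at hx
    refine ⟨hx.1.ne', hparv x hx.1, ?_⟩
    intro y hy hyx
    obtain ⟨w, hw⟩ := Set.ncard_eq_one.mp hx.2
    have h1 : v ∈ T.neighborSet x := hx.1.symm
    have h2 : y ∈ T.neighborSet x := by
      have := (hpar y hy).1
      rw [hyx] at this
      exact this
    rw [hw, Set.mem_singleton_iff] at h1 h2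
    exact hy (h2.trans h1.symm)
  -- the degree of `v`
  have hL3 : 3 ≤ L.card := by
    have h1 : (3 : ℝ) ≤ L.card := by
      have : (0 : ℝ) ≤ r₀ := Nat.cast_nonneg _
      linarith
    exact_mod_cast h1
  have hdegv : 3 ≤ (T.neighborSet v).ncard := by
    have h1 : (L : Set V) ⊆ T.neighborSet v := by
      intro x hx
      exact ((hmemL x).mp hx).1
    have h2 := Set.ncard_le_ncard h1 (Set.toFinite _)
    rw [Set.ncard_coe_finset] at h2
    omega
  have hPv : ∀ i j, P i j ≠ v := by
    intro i j h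
    have h1 := hPdeg i j
    rw [h] at h1
    omega
  have hLsub : L ⊆ univ.erase v := by
    intro x hx
    rw [mem_erase]
    exact ⟨(hLp x hx).1, mem_univ _⟩
  have hcard : (univ.erase v : Finset V).card = m := by
    rw [card_erase_of_mem (mem_univ v), card_univ]; omega
  have hLm : L.card ≤ m := by
    rw [← hcard]; exact card_le_card hLsub
  obtain ⟨r, hr⟩ : ∃ r, m = L.card + r := ⟨m - L.card, by omega⟩
  have hNr : N ≤ r := by
    have h1 : (univ.image fun i : Fin N => P i 0) ⊆ (univ.erase v) \ L := by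
      intro x hx
      obtain ⟨i, -, rfl⟩ := mem_image.mp hx
      rw [mem_sdiff, mem_erase]
      refine ⟨⟨hPv i 0, mem_univ _⟩, ?_⟩
      rw [hmemL]
      intro h
      have h2 := hPdeg i 0
      omega
    have h2 := card_le_card h1
    rw [card_image_of_injective _ (fun i i' h => (hPinj i 0 i' 0 h).1), card_univ,
      Fintype.card_fin, card_sdiff_of_subset hLsub, hcard] at h2
    omega
  have hNr' : (N : ℝ) ≤ r := by exact_mod_cast hNr
  have hr0 : r₀ ≤ r := by
    have h1 : (r₀ : ℝ) ≤ r := by linarith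
    exact_mod_cast h1
  have hmr : (m : ℝ) = L.card + r := by exact_mod_cast hr
  -- the cluster
  have hav : a ≠ v := hva.ne'
  have hba : b ≠ a := hab.ne'
  have hpa : par a = v := hparv a hva
  have hdva : T.dist v a = 1 := hdv1 a hva
  have hpb : par b = a ∧ T.dist v b = 2 := by
    rcases hT.dist_eq_dist_add_one_of_adj v hab with h | h
    · exfalso
      rw [hdva] at h
      have h1 : T.dist v b = 0 := by omega
      rw [hT.connected.dist_eq_zero_iff] at h1
      exact hbv h1.symm
    · exact ⟨hpar' _ _ hab.symm h, by omega⟩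
  obtain ⟨w, hwa, hwb, hwn⟩ : ∃ w, w ≠ a ∧ T.Adj b w ∧ ∀ y, T.Adj b y → y = a ∨ y = w := by
    obtain ⟨x, y, hxy, hs⟩ := Set.ncard_eq_two.mp hdb
    have h1 : a ∈ T.neighborSet b := hab.symm
    rw [hs] at h1
    have hx : T.Adj b x := by
      have : x ∈ T.neighborSet b := by rw [hs]; simp
      exact this
    have hy : T.Adj b y := by
      have : y ∈ T.neighborSet b := by rw [hs]; simp
      exact this
    have hall : ∀ z, T.Adj b z → z = x ∨ z = y := by
      intro z hz
      have : z ∈ T.neighborSet b := hz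
      rw [hs] at this
      simpa using this
    rcases (by simpa using h1 : a = x ∨ a = y) with h | h
    · subst h
      exact ⟨y, hxy.symm, hy, hall⟩
    · subst h
      exact ⟨x, hxy, hx, fun z hz => (hall z hz).symm⟩
  have hwv : w ≠ v := by
    intro h
    rw [h] at hwb
    have := hdv1 b hwb.symm
    omega
  have hpw : par w = b := by
    rcases hT.dist_eq_dist_add_one_of_adj v hwb with h | h
    · exfalso
      have h1 := hpar' _ _ hwb h
      rw [hpb.1] at h1
      exact hwa h1.symm
    · exact hpar' _ _ hwb.symm h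
  have hclu : Clu V v par {a, b} {b} a b (fun _ => w) := by
    refine ⟨?_, by simp, by simp, hba, hpa, hpb.1, ?_, ?_, ?_, ?_, ?_, ?_, ?_⟩
    · simp only [mem_insert, mem_singleton, not_or]
      exact ⟨hav.symm, hbv.symm⟩
    · intro x hx hxa
      simp only [mem_insert, mem_singleton] at hx
      rcases hx with rfl | rfl
      · exact absurd rfl hxa
      · rw [hpb.1]; simp
    · intro x hx
      rw [mem_singleton] at hx
      subst hx
      simp [hba]
    · intro x hx hxb y hy hyx
      simp only [mem_insert, mem_singleton] at hx hxb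
      have hxa : x = a := hx.resolve_right hxb
      subst hxa
      have := nbr hpar hav hda hy hbv hyx hpb.1
      rw [this]; simp
    · intro x _
      exact hwv
    · intro x hx
      rw [mem_singleton] at hx
      rw [hx]; exact hpw
    · intro x _
      simp only [mem_insert, mem_singleton, not_or]
      exact ⟨hwa, hwb.ne'⟩
    · intro x hx y hy hyx
      rw [mem_singleton] at hx
      subst hx
      exact nbr hpar hbv hdb hy hwv hyx hpw
  -- the chains
  have hver : ∀ i : Fin N, ∃ A : ℕ → V, (∀ j < 69, ∃ j', A j = P i j') ∧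
      (∀ j < 69, ∀ j' < 69, A j = A j' → j = j') ∧ ∀ j < 68, par (A (j + 1)) = A j := by
    intro i
    set Q : ℕ → V := fun j => if h : j < 69 then P i ⟨j, h⟩ else v with hQ
    have hQ' : ∀ j (h : j < 69), Q j = P i ⟨j, h⟩ := by
      intro j h
      simp only [hQ]
      rw [dif_pos h]
    obtain ⟨σ, hσ1, hσ2, hσ3⟩ := vertical hT hpar hpar' Q
      (fun j hj => by
        rw [hQ' j (by omega), hQ' (j + 1) (by omega)]
        exact hPadj i j (by omega))
      (fun j hj j' hj' h => by
        rw [hQ' j hj, hQ' j' hj'] at h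
        have := (hPinj _ _ _ _ h).2
        simpa using this)
      (fun j hj => by rw [hQ' j hj]; exact hPdeg _ _)
      (fun j hj => by rw [hQ' j hj]; exact hPv _ _)
    refine ⟨fun j => Q (σ j), fun j hj => ⟨⟨σ j, hσ1 j hj⟩, hQ' _ (hσ1 j hj)⟩, ?_, hσ3⟩
    intro j hj j' hj' h
    simp only at h
    rw [hQ' _ (hσ1 j hj), hQ' _ (hσ1 j' hj')] at h
    have := (hPinj _ _ _ _ h).2
    exact hσ2 j hj j' hj' (by simpa using this)
  choose A hA1 hA2 hA3 using hver
  -- the paths which do not meet the cluster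
  set S : Finset (Fin N) := univ.filter (fun i => ∀ j, P i j ∉ ({a, b} : Finset V)) with hS
  have hSc : N ≤ S.card + 2 := by
    have h1 : ∀ i ∈ Sᶜ, ∃ j, P i j ∈ ({a, b} : Finset V) := by
      intro i hi
      rw [mem_compl, hS, mem_filter] at hi
      by_contra hcon
      push Not at hcon
      exact hi ⟨mem_univ _, hcon⟩
    choose! jj hjj using h1
    have h2 : Sᶜ.card ≤ ({a, b} : Finset V).card := by
      refine card_le_card_of_injOn (fun i => P i (jj i)) (fun i hi => hjj i hi) ?_
      intro i _ i' _ h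
      exact (hPinj _ _ _ _ h).1
    have h3 : ({a, b} : Finset V).card ≤ 2 := card_le_two
    have h4 : S.card + Sᶜ.card = N := by
      rw [card_add_card_compl, Fintype.card_fin]
    omega
  set n := S.card with hn
  let e : Fin n ↪o Fin N := S.orderEmbOfFin hn.symm
  have heS : ∀ i, e i ∈ S := fun i => S.orderEmbOfFin_mem hn.symm i
  set aa : ℕ → ℕ → V := fun i j => if h : i < n then A (e ⟨i, h⟩) j else v with haa
  have haa' : ∀ i (h : i < n) j, aa i j = A (e ⟨i, h⟩) j := by
    intro i h j
    simp only [haa]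
    rw [dif_pos h]
  have hch : Chs V v par n aa := by
    constructor
    · intro i hi j hj
      rw [haa' i hi, haa' i hi]
      exact hA3 _ j hj
    · intro i hi j hj
      rw [haa' i hi]
      obtain ⟨j', hj'⟩ := hA1 (e ⟨i, hi⟩) j hj
      rw [hj']
      exact hPv _ _
    · intro i hi j hj i' hi' j' hj' h
      rw [haa' i hi, haa' i' hi'] at h
      obtain ⟨k, hk⟩ := hA1 (e ⟨i, hi⟩) j hj
      obtain ⟨k', hk'⟩ := hA1 (e ⟨i', hi'⟩) j' hj'
      have h1 := h
      rw [hk, hk'] at h1
      have h2 := (hPinj _ _ _ _ h1).1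
      have h3 : i = i' := by
        have := e.injective h2
        simpa using this
      subst h3
      exact ⟨rfl, hA2 _ j hj j' hj' h⟩
    · intro i hi j hj x hx hxp
      rw [haa' i hi] at hxp ⊢
      obtain ⟨k, hk⟩ := hA1 (e ⟨i, hi⟩) j (by omega)
      obtain ⟨k', hk'⟩ := hA1 (e ⟨i, hi⟩) (j + 1) (by omega)
      have h1 : A (e ⟨i, hi⟩) j ≠ v := by rw [hk]; exact hPv _ _
      have h2 : A (e ⟨i, hi⟩) (j + 1) ≠ v := by rw [hk']; exact hPv _ _
      have h3 : (T.neighborSet (A (e ⟨i, hi⟩) j)).ncard = 2 := by rw [hk]; exact hPdeg _ _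
      exact nbr hpar h1 h3 hx h2 hxp (hA3 _ j hj)
  have hnK : ∀ i < n, ∀ j < 69, aa i j ∉ ({a, b} : Finset V) := by
    intro i hi j hj
    rw [haa' i hi]
    obtain ⟨k, hk⟩ := hA1 (e ⟨i, hi⟩) j hj
    rw [hk]
    have := heS ⟨i, hi⟩
    rw [hS, mem_filter] at this
    exact this.2 k
  have hr0' : (0 : ℝ) ≤ r₀ := Nat.cast_nonneg _
  refine H V T hT v par (T.dist v) hrt (fun x hx => (hpar x hx).1) hedge L r hLp (by omega) hr0 ?_
    {a, b} {b} a b (fun _ => w) hclu ?_ n aa hch hnK ?_
  · rw [← hmr]
    exact (mul_le_mul_of_nonneg_right hε'2 (Nat.cast_nonneg _)).trans hL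
  · have h1 : (({a, b} : Finset V).card : ℝ) ≤ 2 := by exact_mod_cast card_le_two
    have h2 : 2 / δ ≤ r := by linarith
    rw [div_le_iff₀ hδ] at h2
    linarith
  · have h1 : (N : ℝ) ≤ n + 2 := by exact_mod_cast hSc
    have h2 : ε' * r ≤ ε * m := by
      apply mul_le_mul hε'2 _ (Nat.cast_nonneg _) hε.le
      rw [hmr]
      have : (0 : ℝ) ≤ L.card := Nat.cast_nonneg _
      linarith
    nlinarith

end Pool.Agent.W440.SQ
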